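import Pool.Agent.H923R2.FP.Stubs

set_option autoImplicit false

open scoped ComplexConjugate

noncomputable section

namespace Pool.Agent.H923R2.FP.T_N3

open Pool.Agent.H923R2.FP

section basic

variable {A Q R : Type} [CStarAlgebra A]

/-- linear extension of a map on words -/
def fx (f : List (Lt Q R) → A) (e : Ex Q R) : A := (e.map fun p => p.1 • f p.2).sum

theorem fx_nil (f : List (Lt Q R) → A) : fx f [] = 0 := rfl

theorem fx_cons (f : List (Lt Q R) → A) (p : ℂ × List (Lt Q R)) (e : Ex Q R) :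
    fx f (p :: e) = p.1 • f p.2 + fx f e := by simp [fx]

theorem fx_append (f : List (Lt Q R) → A) (e e' : Ex Q R) :
    fx f (e ++ e') = fx f e + fx f e' := by simp [fx]

theorem fx_smx (f : List (Lt Q R) → A) (c : ℂ) (e : Ex Q R) :
    fx f (smx c e) = c • fx f e := by
  induction e with
  | nil => simp [smx, fx]
  | cons p e ih =>
    have : smx c (p :: e) = (c * p.1, p.2) :: smx c e := rfl
    rw [this, fx_cons, fx_cons, ih, smul_add, smul_smul]

theorem fx_ev (θ : Lt Q R → A) (e : Ex Q R) : fx (ev θ) e = evx θ e := rfl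

theorem fx_sub (s : A) (f g : List (Lt Q R) → A) (e : Ex Q R) :
    fx (fun w => s * f w - g w) e = s * fx f e - fx g e := by
  induction e with
  | nil => simp [fx_nil]
  | cons p e ih =>
    rw [fx_cons, fx_cons, fx_cons, ih, mul_add, mul_smul_comm, smul_sub]
    abel

/-- a functional of a product of two extensions -/
theorem sesq (τ : A →ₗ[ℂ] ℂ) (f g : List (Lt Q R) → A) (c : A) (v w : Ex Q R) :
    τ (star (fx f v) * c * fx g w) = (v.map fun p => (w.map fun q =>
      conj p.1 * q.1 * τ (star (f p.2) * c * g q.2)).sum).sum := by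
  have h1 : ∀ (a : List (Lt Q R)) (w : Ex Q R), τ (star (f a) * c * fx g w) =
      (w.map fun q => q.1 * τ (star (f a) * c * g q.2)).sum := by
    intro a w
    induction w with
    | nil => simp [fx_nil]
    | cons q w ih =>
      rw [fx_cons, mul_add, map_add, ih, mul_smul_comm, map_smul, List.map_cons, List.sum_cons,
        smul_eq_mul]
  induction v with
  | nil => simp [fx_nil]
  | cons p v ih =>
    rw [fx_cons, star_add, add_mul, add_mul, map_add, ih, List.map_cons, List.sum_cons, star_smul,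
      smul_mul_assoc, smul_mul_assoc, map_smul, h1, smul_eq_mul]
    congr 1
    rw [← List.sum_map_mul_left]
    congr 1
    apply List.map_congr_left
    intro q _
    rw [mul_assoc ((starRingEnd ℂ) p.1) q.1]
    rfl

theorem sesq_congr (τ : A →ₗ[ℂ] ℂ) (f₁ f₂ g₁ g₂ : List (Lt Q R) → A) (c₁ c₂ : A) (κ : ℂ)
    (h : ∀ v w, τ (star (f₁ v) * c₁ * f₂ w) = κ * τ (star (g₁ v) * c₂ * g₂ w)) (v w : Ex Q R) :
    τ (star (fx f₁ v) * c₁ * fx f₂ w) = κ * τ (star (fx g₁ v) * c₂ * fx g₂ w) := by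
  rw [sesq, sesq, ← List.sum_map_mul_left]
  congr 1
  apply List.map_congr_left
  intro p _
  rw [← List.sum_map_mul_left]
  congr 1
  apply List.map_congr_left
  intro q _
  rw [h]
  ring

/-- the graph of the annihilation operator -/
def GR (τ : A →ₗ[ℂ] ℂ) (θ : Lt Q R → A) (x y : A) : Prop :=
  ∃ e : Ex Q R, evx θ e = x ∧ fx (Ls τ θ) e = y

variable {τ : A →ₗ[ℂ] ℂ} {θ : Lt Q R → A}

theorem GR.zero : GR τ θ 0 0 := ⟨[], rfl, rfl⟩

theorem GR.add {x y x' y' : A} (h : GR τ θ x y) (h' : GR τ θ x' y') :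
    GR τ θ (x + x') (y + y') := by
  obtain ⟨e, rfl, rfl⟩ := h
  obtain ⟨e', rfl, rfl⟩ := h'
  exact ⟨e ++ e', evx_append _ _ _, fx_append _ _ _⟩

theorem GR.smul {x y : A} (c : ℂ) (h : GR τ θ x y) : GR τ θ (c • x) (c • y) := by
  obtain ⟨e, rfl, rfl⟩ := h
  exact ⟨smx c e, evx_smx _ _ _, fx_smx _ _ _⟩

theorem GR.sum {ι : Type} (S : Finset ι) (x y : ι → A) (h : ∀ i, GR τ θ (x i) (y i)) :
    GR τ θ (∑ i ∈ S, x i) (∑ i ∈ S, y i) := by
  classical
  induction S using Finset.induction_on with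
  | empty => exact GR.zero
  | insert a S ha ih =>
    rw [Finset.sum_insert ha, Finset.sum_insert ha]
    exact (h a).add ih

theorem GR.wmul {x y : A} (w : List (Lt Q R)) (h : GR τ θ x y) :
    ∃ y', GR τ θ (ev θ w * x) y' := by
  obtain ⟨e, rfl, rfl⟩ := h
  refine ⟨_, e.map (fun q => (q.1, w ++ q.2)), ?_, rfl⟩
  induction e with
  | nil => simp
  | cons p e ih =>
    rw [List.map_cons, evx_cons, evx_cons, ih, ev_append, mul_add, mul_smul_comm]

theorem Ls_evx (w : List (Lt Q R)) : ∀ l : List (Lt Q R),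
    ∃ e : Ex Q R, ssum (fun l r => τ (ev θ l) • ev θ r) l w = evx θ e := by
  induction w with
  | nil => intro l; exact ⟨[], rfl⟩
  | cons z w ih =>
    intro l
    obtain ⟨e, he⟩ := ih (l ++ [z])
    rw [ssum_cons, he]
    by_cases hz : z.isS
    · exact ⟨(τ (ev θ l), w) :: e, by rw [if_pos hz, evx_cons]⟩
    · exact ⟨e, by rw [if_neg hz, zero_add]⟩

theorem GR.ann {x y : A} (h : GR τ θ x y) : ∃ y', GR τ θ y y' := by
  obtain ⟨e, rfl, rfl⟩ := h
  induction e with
  | nil => exact ⟨0, GR.zero⟩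
  | cons p e ih =>
    obtain ⟨y', hy'⟩ := ih
    obtain ⟨e₂, he₂⟩ := Ls_evx (τ := τ) (θ := θ) p.2 []
    rw [fx_cons]
    refine ⟨_, GR.add (GR.smul p.1 ⟨e₂, ?_, rfl⟩) hy'⟩
    exact he₂.symm

end basic

theorem t_N3 (hT1 : S_T1) (hN1 : S_N1) (hN2 : S_N2) : S_N3 := by
  intro A Q R _ _ _ _ _ _ _ τ π ρ s hτ hs ι _ _ e M B hB he horth hM1 hM2 ξ
  obtain ⟨hCS, htri, hmul, -, -, -, hsq, hnn⟩ := hT1 A τ hτ
  have n1 := hN1 A Q R τ π ρ s hτ hs
  have n2' := hN2 A Q R τ π ρ s hτ hs n1
  set θ : Lt Q R → A := vl π ρ s with hθ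
  have hstar : ∀ w : List (Lt Q R), star (ev θ w) = ev θ (stw w) := fun w =>
    star_ev (vl_stl π ρ hs.ssa) w
  -- extended versions of N1 and N2
  have ha : ∀ x y x' y' : A, GR τ θ x y → GR τ θ x' y' →
      τ (star x * y') = τ (star (s * x - y) * x') := by
    rintro x y x' y' ⟨v, rfl, rfl⟩ ⟨w, rfl, rfl⟩
    have h := sesq_congr τ (ev θ) (Ls τ θ) (fun v => s * ev θ v - Ls τ θ v) (ev θ) 1 1 1
      (fun v w => by rw [mul_one, mul_one, one_mul]; exact n1 v w) v w
    rw [fx_sub, mul_one, mul_one, one_mul] at h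
    exact h
  have hb : ∀ c : List (Lt Q R), (∀ z ∈ c, z.isS = false) → ∀ x y x' y' : A, GR τ θ x y →
      GR τ θ x' y' → τ (star (s * x - y) * ev θ c * (s * x' - y')) =
        τ (ev θ c) * τ (star x * x') := by
    rintro c hc x y x' y' ⟨v, rfl, rfl⟩ ⟨w, rfl, rfl⟩
    have h := sesq_congr τ (fun v => s * ev θ v - Ls τ θ v) (fun v => s * ev θ v - Ls τ θ v)
      (ev θ) (ev θ) (ev θ c) 1 (τ (ev θ c))
      (fun v w => by rw [mul_one]; exact n2' c v w hc) v w
    rw [fx_sub, fx_sub, mul_one] at h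
    exact h
  have hcc : ∀ i j, ∀ z ∈ stw (e i) ++ e j, z.isS = false := by
    intro i j z hz
    rw [List.mem_append] at hz
    rcases hz with hz | hz
    · unfold stw at hz
      rw [List.mem_reverse, List.mem_map] at hz
      obtain ⟨z', hz', rfl⟩ := hz
      rw [stl_isS]
      exact he i z' hz'
    · exact he j z hz
  -- Pythagoras
  have hP : ∀ x y : ι → A, (∀ i, GR τ θ (x i) (y i)) →
      τ (star (∑ i, ev θ (e i) * (s * x i - y i)) * (∑ i, ev θ (e i) * (s * x i - y i))) =
        ∑ i, τ (star (x i) * x i) := by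
    intro x y hxy
    rw [star_sum, Finset.sum_mul, map_sum]
    apply Finset.sum_congr rfl
    intro i _
    rw [Finset.mul_sum, map_sum, Finset.sum_eq_single i]
    · have h := hb _ (hcc i i) _ _ _ _ (hxy i) (hxy i)
      rw [ev_append, ← hstar, horth i i, if_pos rfl, one_mul] at h
      rw [← h, star_mul]
      simp only [mul_assoc]
    · intro j _ hj
      have h := hb _ (hcc i j) _ _ _ _ (hxy i) (hxy j)
      rw [ev_append, ← hstar, horth i j, if_neg (Ne.symm hj), zero_mul] at h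
      rw [← h, star_mul]
      simp only [mul_assoc]
    · intro hi
      exact absurd (Finset.mem_univ _) hi
  have hQ : ∀ (b y : ι → A) (η : A), (∀ i, GR τ θ (b i * η) (y i)) →
      ‖∑ i, star (b i) * b i‖ ≤ B ^ 2 →
      nt τ (∑ i, ev θ (e i) * (s * (b i * η) - y i)) ≤ B * nt τ η := by
    intro b y η hby hBb
    have h1 := hP (fun i => b i * η) y hby
    have h2 : ∑ i, τ (star (b i * η) * (b i * η)) =
        τ (star η * ((∑ i, star (b i) * b i) * η)) := by
      rw [Finset.sum_mul, Finset.mul_sum, map_sum]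
      apply Finset.sum_congr rfl
      intro i _
      rw [star_mul]
      simp only [mul_assoc]
    have h3 := hsq (∑ i, ev θ (e i) * (s * (b i * η) - y i))
    rw [h1, h2] at h3
    have h4 := hCS η ((∑ i, star (b i) * b i) * η)
    rw [← h3] at h4
    have h5 := hmul (∑ i, star (b i) * b i) η
    set N := nt τ (∑ i, ev θ (e i) * (s * (b i * η) - y i)) with hN
    have h6 : ‖((N : ℂ)) ^ 2‖ = N ^ 2 := by
      rw [norm_pow, Complex.norm_real, Real.norm_of_nonneg (hnn _)]
    rw [h6] at h4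
    have h7 : N ^ 2 ≤ (B * nt τ η) ^ 2 := by
      have h8 := hnn η
      calc N ^ 2 ≤ nt τ η * nt τ ((∑ i, star (b i) * b i) * η) := h4
        _ ≤ nt τ η * (‖∑ i, star (b i) * b i‖ * nt τ η) := mul_le_mul_of_nonneg_left h5 h8
        _ ≤ nt τ η * (B ^ 2 * nt τ η) := by gcongr
        _ = (B * nt τ η) ^ 2 := by ring
    exact (pow_le_pow_iff_left₀ (hnn _) (mul_nonneg hB (hnn _)) two_ne_zero).1 h7
  -- the data
  have hξ : GR τ θ (evx θ ξ) (fx (Ls τ θ) ξ) := ⟨ξ, rfl, rfl⟩
  set x₀ := evx θ ξ with hx₀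
  have hz : ∀ j, ∃ z, GR τ θ (star (ev θ (e j)) * x₀) z := by
    intro j
    rw [hstar]
    exact hξ.wmul _
  choose z hz using hz
  set b : ι → A := fun i => ∑ j, M i j • star (ev θ (e j)) with hbdef
  set y : ι → A := fun i => ∑ j, M i j • z j with hydef
  set a : ι → A := fun j => ∑ i, M i j • ev θ (e i) with hadef
  have hby : ∀ i, GR τ θ (b i * x₀) (y i) := by
    intro i
    have h1 : b i * x₀ = ∑ j, M i j • (star (ev θ (e j)) * x₀) := by
      rw [hbdef]
      simp only []
      rw [Finset.sum_mul]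
      apply Finset.sum_congr rfl
      intro j _
      rw [smul_mul_assoc]
    rw [h1]
    exact GR.sum _ _ _ (fun j => (hz j).smul _)
  have hdec : (∑ i, ∑ j, M i j • (ev θ (e i) * s * star (ev θ (e j)))) * x₀ =
      ∑ i, ev θ (e i) * (s * (b i * x₀) - y i) + ∑ j, a j * z j := by
    have h1 : ∑ j, a j * z j = ∑ i, ev θ (e i) * y i := by
      have h2 : ∑ j, a j * z j = ∑ j, ∑ i, M i j • (ev θ (e i) * z j) := by
        apply Finset.sum_congr rfl
        intro j _
        rw [hadef]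
        simp only []
        rw [Finset.sum_mul]
        apply Finset.sum_congr rfl
        intro i _
        rw [smul_mul_assoc]
      rw [h2, Finset.sum_comm]
      apply Finset.sum_congr rfl
      intro i _
      rw [hydef]
      simp only []
      rw [Finset.mul_sum]
      apply Finset.sum_congr rfl
      intro j _
      rw [mul_smul_comm]
    rw [h1, ← Finset.sum_add_distrib, Finset.sum_mul]
    apply Finset.sum_congr rfl
    intro i _
    rw [mul_sub, sub_add_cancel, hbdef]
    simp only []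
    rw [Finset.sum_mul, Finset.sum_mul, Finset.mul_sum, Finset.mul_sum]
    apply Finset.sum_congr rfl
    intro j _
    rw [smul_mul_assoc, smul_mul_assoc, mul_smul_comm, mul_smul_comm]
    simp only [mul_assoc]
  have hF1 : nt τ (∑ i, ev θ (e i) * (s * (b i * x₀) - y i)) ≤ B * nt τ x₀ :=
    hQ b y x₀ hby hM1
  have hY : nt τ (∑ j, a j * z j) ≤ B * nt τ x₀ := by
    -- `Y` is in the domain
    have hstep : ∀ (c : ι → ℂ) (η y' : A), GR τ θ η y' →
        ∃ y'', GR τ θ ((∑ i, c i • ev θ (e i)) * η) y'' := by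
      intro c η y' hη
      have h1 : ∀ i, ∃ y'', GR τ θ (ev θ (e i) * η) y'' := fun i => hη.wmul _
      choose y'' hy'' using h1
      refine ⟨∑ i, c i • y'' i, ?_⟩
      rw [Finset.sum_mul]
      have h2 : ∑ i, c i • ev θ (e i) * η = ∑ i, c i • (ev θ (e i) * η) := by
        apply Finset.sum_congr rfl
        intro i _
        rw [smul_mul_assoc]
      rw [h2]
      exact GR.sum _ _ _ (fun i => (hy'' i).smul _)
    have hstep' : ∀ (c : ι → ℂ) (η y' : A), GR τ θ η y' →
        ∃ y'', GR τ θ (star (∑ i, c i • ev θ (e i)) * η) y'' := by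
      intro c η y' hη
      have h1 : ∀ i, ∃ y'', GR τ θ (star (ev θ (e i)) * η) y'' := fun i => by
        rw [hstar]
        exact hη.wmul _
      choose y'' hy'' using h1
      refine ⟨∑ i, star (c i) • y'' i, ?_⟩
      rw [star_sum, Finset.sum_mul]
      have h2 : ∑ i, star (c i • ev θ (e i)) * η =
          ∑ i, star (c i) • (star (ev θ (e i)) * η) := by
        apply Finset.sum_congr rfl
        intro i _
        rw [star_smul, smul_mul_assoc]
      rw [h2]
      exact GR.sum _ _ _ (fun i => (hy'' i).smul _)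
    have hYG : ∃ y', GR τ θ (∑ j, a j * z j) y' := by
      have h1 : ∀ j, ∃ y'', GR τ θ (a j * z j) y'' := by
        intro j
        obtain ⟨y', hy'⟩ := (hz j).ann
        exact hstep (fun i => M i j) (z j) y' hy'
      choose y'' hy'' using h1
      exact ⟨_, GR.sum _ _ _ hy''⟩
    obtain ⟨y', hy'⟩ := hYG
    obtain ⟨Y, hYdef⟩ : ∃ Y, Y = ∑ j, a j * z j := ⟨_, rfl⟩
    rw [← hYdef] at hy' ⊢
    have h1 : ∀ j, ∃ u, GR τ θ (star (a j) * Y) u := fun j =>
      hstep' (fun i => M i j) Y y' hy'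
    choose u hu using h1
    have h2 : τ (star Y * Y) =
        τ (star (∑ j, ev θ (e j) * (s * (star (a j) * Y) - u j)) * x₀) := by
      have h0 : τ (star Y * Y) = τ (star Y * ∑ j, a j * z j) := by rw [← hYdef]
      rw [h0, star_sum, Finset.sum_mul, map_sum, Finset.mul_sum, map_sum]
      apply Finset.sum_congr rfl
      intro j _
      have h3 := ha _ _ _ _ (hu j) (hz j)
      rw [star_mul, star_star] at h3
      rw [star_mul, mul_assoc, ← h3, mul_assoc]
    have h3 := hCS (∑ j, ev θ (e j) * (s * (star (a j) * Y) - u j)) x₀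
    rw [← h2, ← hsq Y] at h3
    have h4 := hQ (fun j => star (a j)) u Y hu (by
      simp only [star_star]
      exact hM2)
    have h6 : ‖((nt τ Y : ℝ) : ℂ) ^ 2‖ = nt τ Y ^ 2 := by
      rw [norm_pow, Complex.norm_real, Real.norm_of_nonneg (hnn _)]
    rw [h6] at h3
    have h7 := hnn Y
    have h8 := hnn x₀
    rcases h7.eq_or_lt with h9 | h9
    · rw [← h9]
      exact mul_nonneg hB h8
    · have h10 : nt τ Y ^ 2 ≤ (B * nt τ x₀) * nt τ Y := by
        calc nt τ Y ^ 2 ≤ nt τ (∑ j, ev θ (e j) * (s * (star (a j) * Y) - u j)) * nt τ x₀ := h3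
          _ ≤ (B * nt τ Y) * nt τ x₀ := mul_le_mul_of_nonneg_right h4 h8
          _ = (B * nt τ x₀) * nt τ Y := by ring
      rw [sq] at h10
      exact le_of_mul_le_mul_right h10 h9
  rw [hdec]
  calc nt τ (∑ i, ev θ (e i) * (s * (b i * x₀) - y i) + ∑ j, a j * z j) ≤
      nt τ (∑ i, ev θ (e i) * (s * (b i * x₀) - y i)) + nt τ (∑ j, a j * z j) := htri _ _
    _ ≤ B * nt τ x₀ + B * nt τ x₀ := add_le_add hF1 hY
    _ = 2 * B * nt τ x₀ := by ring

end Pool.Agent.H923R2.FP.T_N3
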