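import Pool.Agent.H923R2.FP.Stubs

set_option autoImplicit false

open scoped ComplexConjugate

noncomputable section

namespace Pool.Agent.H923R2.FP.T_STAGE

open Pool.Agent.H923R2.FP

section aux

variable {A Q R : Type} [CStarAlgebra A] [Ring Q] [StarRing Q] [Algebra ℂ Q]
  [Ring R] [StarRing R] [Algebra ℂ R]

theorem cj_one (π : Q →⋆ₐ[ℂ] A) : cj π 1 = π := by
  ext x
  rw [cj_apply]
  simp

theorem norm_PU (π : Q →⋆ₐ[ℂ] A) (ρ : R →⋆ₐ[ℂ] A) (u : unitary Q) (a : unitary R) (X : R) (v : F2)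
    (hX : ‖ρ X‖ ≤ 2) : ‖PU π ρ u a X v 1‖ ≤ 2 := by
  unfold PU
  rw [CStarRing.norm_mul_coe_unitary, CStarRing.norm_coe_unitary_mul]
  exact hX

theorem kap_herm (N m n : ℕ) : kap N n m = conj (kap N m n) := by
  unfold kap
  by_cases h1 : m = n + 1
  · have h2 : ¬ n = m + 1 := by omega
    rw [if_neg h2, if_pos h1, if_pos h1, map_mul, map_neg, map_div₀, Complex.conj_I,
      Complex.conj_ofReal, map_ofNat]
    ring
  · by_cases h2 : n = m + 1
    · rw [if_pos h2, if_neg h1, if_pos h2, map_mul, map_div₀, Complex.conj_I,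
        Complex.conj_ofReal, map_ofNat]
      ring
    · rw [if_neg h2, if_neg h1, if_neg h1, if_neg h2, map_zero]

theorem RC_mono {κ : ℕ → ℕ → ℂ} {M : ℕ} {B B' : ℝ} (h : RC κ M B) (hB : B ≤ B') : RC κ M B' := by
  obtain ⟨h0, h1⟩ := h
  have h2 : B ^ 2 ≤ B' ^ 2 := by nlinarith
  exact ⟨h0.trans hB, fun l hl => ⟨(h1 l hl).1.trans h2, (h1 l hl).2.trans h2⟩⟩

theorem n2_single : n2 (Finsupp.single (1 : F2) (1 : ℝ)) = 1 := by
  unfold n2
  rw [Finsupp.support_single_ne_zero _ one_ne_zero, Finset.sum_singleton, Finsupp.single_eq_same]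
  norm_num

theorem evx_L (θ : Lt Q R → A) (s : A) (hs : θ Lt.s = s)
    (L : List (ℂ × List (Lt Q R) × List (Lt Q R))) :
    evx θ (L.map fun x => (x.1, x.2.1 ++ Lt.s :: x.2.2)) =
      (L.map fun x => x.1 • (ev θ x.2.1 * s * ev θ x.2.2)).sum := by
  unfold evx
  rw [List.map_map]
  congr 1
  apply List.map_congr_left
  intro x _
  show x.1 • ev θ (x.2.1 ++ Lt.s :: x.2.2) = x.1 • (ev θ x.2.1 * s * ev θ x.2.2)
  rw [ev_append, ev_cons, hs, mul_assoc]

theorem Sol_restrict {π : Q →⋆ₐ[ℂ] A} {ρ : R →⋆ₐ[ℂ] A} {hx px : Ex Q R} {T T' : ℝ}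
    {U : ℝ → unitary A} {s : ℝ → A} (h : Sol π ρ hx px T U s) (hT : T' ≤ T) :
    Sol π ρ hx px T' U s where
  U0 := h.U0
  ssa := h.ssa
  dU t ht := (h.dU t ⟨ht.1, ht.2.trans hT⟩).mono (Set.Icc_subset_Icc_right hT)
  ds t ht := (h.ds t ⟨ht.1, ht.2.trans hT⟩).mono (Set.Icc_subset_Icc_right hT)

theorem KK_eq (hAD : S_AD) (π : Q →⋆ₐ[ℂ] A) (ρ : R →⋆ₐ[ℂ] A) (s : A)
    (u : unitary Q) (a : unitary R) (X : R) (v : F2) (κ : ℕ → ℕ → ℂ) (M : ℕ) :
    KK π ρ u a X v s κ M = ∑ m ∈ Finset.range M, ∑ n ∈ Finset.range M,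
      κ m n • (Uc (PU π ρ u a X v 1) m * s * Uc (PU π ρ u a X v 1) n) := by
  unfold KK
  have h := (hAD A Q R π ρ s u a X v κ M).2.2.2.2
  apply Finset.sum_congr rfl
  intro m _
  apply Finset.sum_congr rfl
  intro n _
  rw [h m, h n]

end aux

theorem t_STAGE (hC3 : S_C3) (hC4 : S_C4) (hC5 : S_C5) (hNI : S_NI) (hAD : S_AD) (hFORM : S_FORM)
    (hCW : S_CW) (hEPS : S_EPS) (hHX : S_HX) (hSTAR : S_STAR) (hTI : S_TI) (hFLOW : S_FLOW)
    (hWDER : S_WDER) (hLAW : S_LAW) (hBACK : S_BACK) (hTRF : S_TRF) : S_STAGE := by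
  intro A Q R _ _ _ _ _ _ _ τ π ρ s hτ hsys hgen hgad ε hε
  -- parameters
  obtain ⟨N, hN1, hRCe⟩ := hC4 (ε / 20) (by positivity)
  obtain ⟨B0, hB0⟩ := hC5 (kap N) (N + 3)
  obtain ⟨B, hBdef⟩ : ∃ B, B = B0 + 1 := ⟨_, rfl⟩
  have hB : RC (kap N) (N + 3) B := RC_mono hB0 (by rw [hBdef]; linarith)
  have hB1 : 1 ≤ B := by
    rw [hBdef]
    have := hB0.1
    linarith
  obtain ⟨ε', hε'def⟩ : ∃ ε', ε' = ε / (100 * (B + 1)) := ⟨_, rfl⟩
  have hε'pos : 0 < ε' := by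
    rw [hε'def]
    positivity
  have hBε : B * ε' ≤ ε / 100 := by
    rw [hε'def, mul_div_assoc', div_le_div_iff₀ (by positivity) (by norm_num)]
    nlinarith
  obtain ⟨L, t, hn2t, hn2c, hc1⟩ := hCW ε' hε'pos
  obtain ⟨v, hv⟩ : ∃ v, v = yy (2 * L) := ⟨_, rfl⟩
  have hsum : ∑ g ∈ t.support, t g * eps v g = 1 := by
    rw [hv]
    exact (hEPS L t).trans hc1
  obtain ⟨c1, hc1def⟩ : ∃ c1, c1 = Zs L t - Finsupp.single 1 1 := ⟨_, rfl⟩
  obtain ⟨p, hp⟩ : ∃ p, p = 2 * (v.norm + (t.support ∪ c1.support ∪ {1}).sup FreeGroup.norm) + 1 :=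
    ⟨_, rfl⟩
  have hpn : ∀ g ∈ t.support ∪ c1.support ∪ {1}, 2 * (v.norm + g.norm) < p := by
    intro g hg
    have h1 : g.norm ≤ (t.support ∪ c1.support ∪ {1}).sup FreeGroup.norm :=
      Finset.le_sup (f := FreeGroup.norm) hg
    rw [hp]
    omega
  have hpt : ∀ g ∈ t.support, 2 * (v.norm + g.norm) < p := fun g hg =>
    hpn g (Finset.mem_union_left _ (Finset.mem_union_left _ hg))
  have hpc1 : ∀ g ∈ c1.support, 2 * (v.norm + g.norm) < p := fun g hg =>
    hpn g (Finset.mem_union_left _ (Finset.mem_union_right _ hg))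
  have hp1 : ∀ g ∈ (Finsupp.single (1 : F2) (1 : ℝ)).support, 2 * (v.norm + g.norm) < p := by
    intro g hg
    rw [Finsupp.support_single_ne_zero _ one_ne_zero] at hg
    exact hpn g (Finset.mem_union_right _ hg)
  obtain ⟨u, a, X, hG⟩ := hgad p
  obtain ⟨L', hL1, hL2, hL3, hL4, hL5⟩ := hHX A Q R ρ u a X v t (kap N) (N + 3) hG.Xsa
    (fun m n => kap_herm N m n)
  obtain ⟨hx, hhx⟩ : ∃ hx : Ex Q R, hx = L'.map fun x => (x.1, x.2.1 ++ Lt.s :: x.2.2) := ⟨_, rfl⟩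
  obtain ⟨px, hpx⟩ : ∃ px : Ex Q R, px = [((1 : ℂ), pw u a X v 1)] := ⟨_, rfl⟩
  rw [← hhx] at hL4
  rw [← hpx] at hL5
  have ehx : ∀ (π' : Q →⋆ₐ[ℂ] A) (s' : A), evx (vl π' ρ s') hx =
      AdK π' ρ u a X v s' t (kap N) (N + 3) := by
    intro π' s'
    rw [hhx, evx_L _ s' rfl, hL2]
  have epx : ∀ (π' : Q →⋆ₐ[ℂ] A) (s' : A), evx (vl π' ρ s') px = PU π' ρ u a X v 1 := by
    intro π' s'
    rw [hpx, evx_cons, evx_nil, add_zero, one_smul, ev_pw]
  have pxS : ∀ q ∈ px, ∀ z ∈ q.2, z.isS = false := by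
    intro q hq
    rw [hpx, List.mem_singleton] at hq
    rw [hq]
    exact pw_noS u a X v 1
  obtain ⟨T, hT⟩ : ∃ T, T = Real.pi / 2 := ⟨_, rfl⟩
  have hT0 : 0 < T := by rw [hT]; positivity
  have hT2 : T ≤ 2 := by
    rw [hT]
    have := Real.pi_le_four
    linarith
  obtain ⟨U, st, hst0, hSol⟩ := hFLOW A Q R π ρ hx px hL4 hL5 pxS s hsys.ssa T hT0
  -- the trace identity at time 0
  have htr : ∀ w : List (Lt Q R), τ (der (vl π ρ (st 0)) (dl π (evx (vl π ρ (st 0)) hx)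
      (evx (vl π ρ (st 0)) px)) w) = 0 := by
    rw [hst0, epx, ← ev_pw π ρ s u a X v 1]
    apply hTI A Q R τ π ρ s hτ hsys L' (pw u a X v 1) hL1 (pw_noS u a X v 1)
    · rw [ehx, hL2]
    · intro w
      rw [hL3 π s (fun y z => phi τ (vl π ρ s) z y w), ev_pw]
      exact hSTAR A Q R τ π ρ s u a X p hτ hsys hG v t N hN1 hpt hsum w
  -- facts at time `r`
  have hLawr : ∀ r ∈ Set.Icc 0 T, Law τ (vl π ρ s) (vl (cj π (U r)) ρ (st r)) := by
    intro r hr
    have h1 := hLAW A Q R τ π ρ hx px T U st hτ hL4 hSol htr r hr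
    rwa [hst0] at h1
  have hSysr : ∀ r ∈ Set.Icc 0 T, Sys τ (cj π (U r)) ρ (st r) := fun r hr =>
    (hTRF A Q R τ π (cj π (U r)) ρ s (st r) hτ (hLawr r hr) (hSol.ssa r)).1 hsys
  have hGadr : ∀ r ∈ Set.Icc 0 T, Gad τ (cj π (U r)) ρ u a X p := fun r hr =>
    (hTRF A Q R τ π (cj π (U r)) ρ s (st r) hτ (hLawr r hr) (hSol.ssa r)).2 u a X p hG
  have hGenr : ∀ r ∈ Set.Icc 0 T, Gen (cj π (U r)) ρ (st r) := by
    intro r hr
    rcases hr.1.eq_or_lt with h0 | h0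
    · rw [← h0, hSol.U0, hst0, cj_one]
      exact hgen
    · exact hBACK A Q R π ρ hx px r U st h0 hL4 hL5 pxS (Sol_restrict hSol hr.2)
        (by rw [hst0]; exact hgen)
  have hNIr : ∀ r ∈ Set.Icc 0 T, ∀ (c' : F2 →₀ ℝ) (κ' : ℕ → ℕ → ℂ) (M' : ℕ) (B' : ℝ),
      RC κ' M' B' → (∀ g ∈ c'.support, 2 * (v.norm + g.norm) < p) →
      ‖AdK (cj π (U r)) ρ u a X v (st r) c' κ' M'‖ ≤ 2 * B' * n2 c' := fun r hr c' κ' M' B' h1 h2 =>
    hNI A Q R τ (cj π (U r)) ρ (st r) u a X p hτ (hSysr r hr) (hGenr r hr) (hGadr r hr) v c' κ' M'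
      B' h1 h2
  -- the function `P`
  obtain ⟨P, hPdef⟩ : ∃ P : ℝ → A, ∀ r, P r = PU (cj π (U r)) ρ u a X v 1 := ⟨_, fun _ => rfl⟩
  have hP2 : ∀ r, ‖P r‖ ≤ 2 := by
    intro r
    rw [hPdef]
    exact norm_PU _ _ _ _ _ _ hG.Xn
  obtain ⟨P', hP'def⟩ : ∃ P' : ℝ → A, ∀ r, P' r = Complex.I •
      (P r * AdK (cj π (U r)) ρ u a X v (st r) (Zs L t) (kap N) (N + 3) -
        AdK (cj π (U r)) ρ u a X v (st r) (Zs L t) (kap N) (N + 3) * P r) := ⟨_, fun _ => rfl⟩
  have hPder : ∀ r ∈ Set.Icc 0 T, HasDerivWithinAt P (P' r) (Set.Icc 0 T) r := by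
    intro r hr
    have h1 := hWDER A Q R π ρ hx px T U st hL4 hSol (pw u a X v 1) r hr
    have h2 : (fun t => ev (vl (cj π (U t)) ρ (st t)) (pw u a X v 1)) = P := by
      funext r
      rw [ev_pw, hPdef]
    rw [h2, ehx, hv, hFORM A Q R (cj π (U r)) ρ (st r) u a X L t (kap N) (N + 3)] at h1
    rw [hP'def, hPdef, hv]
    exact h1
  -- the main estimate
  have hmain : ∀ r ∈ Set.Icc 0 T, ‖P' r - st r‖ ≤ ε / 5 := by
    intro r hr
    obtain ⟨ad1, -, -, ad4, -⟩ := hAD A Q R (cj π (U r)) ρ (st r) u a X v (kap N) (N + 3)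
    obtain ⟨-, -, -, ad4', -⟩ := hAD A Q R (cj π (U r)) ρ (st r) u a X v (err N) (N + 3)
    have h1 : Zs L t = c1 + Finsupp.single 1 1 := by rw [hc1def, sub_add_cancel]
    have h2 : AdK (cj π (U r)) ρ u a X v (st r) (Zs L t) (kap N) (N + 3) =
        AdK (cj π (U r)) ρ u a X v (st r) c1 (kap N) (N + 3) +
          KK (cj π (U r)) ρ u a X v (st r) (kap N) (N + 3) := by
      rw [h1, ad1, ad4]
    have h3 : Complex.I • (P r * KK (cj π (U r)) ρ u a X v (st r) (kap N) (N + 3) -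
        KK (cj π (U r)) ρ u a X v (st r) (kap N) (N + 3) * P r) =
        st r + KK (cj π (U r)) ρ u a X v (st r) (err N) (N + 3) := by
      rw [KK_eq hAD, KK_eq hAD, hPdef]
      exact hC3 A (PU (cj π (U r)) ρ u a X v 1) (st r) N hN1
    obtain ⟨D, hD⟩ : ∃ D, D = AdK (cj π (U r)) ρ u a X v (st r) c1 (kap N) (N + 3) := ⟨_, rfl⟩
    have h4 : P' r - st r = Complex.I • (P r * D - D * P r) +
        KK (cj π (U r)) ρ u a X v (st r) (err N) (N + 3) := by
      have h5 : P' r = Complex.I • (P r * D - D * P r) + Complex.I •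
          (P r * KK (cj π (U r)) ρ u a X v (st r) (kap N) (N + 3) -
            KK (cj π (U r)) ρ u a X v (st r) (kap N) (N + 3) * P r) := by
        rw [hP'def, h2, ← hD, ← smul_add]
        congr 1
        noncomm_ring
      rw [h5, h3]
      abel
    have h5 : ‖D‖ ≤ 2 * B * ε' := by
      rw [hD]
      refine (hNIr r hr c1 (kap N) (N + 3) B hB hpc1).trans ?_
      have h6 : n2 c1 ≤ ε' := by rw [hc1def]; exact hn2c.le
      have h7 : 0 ≤ 2 * B := by linarith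
      exact mul_le_mul_of_nonneg_left h6 h7
    have h6 : ‖KK (cj π (U r)) ρ u a X v (st r) (err N) (N + 3)‖ ≤ ε / 10 := by
      rw [← ad4']
      refine (hNIr r hr _ (err N) (N + 3) (ε / 20) hRCe hp1).trans ?_
      rw [n2_single]
      linarith
    have h7 : ‖Complex.I • (P r * D - D * P r)‖ ≤ 8 * (B * ε') := by
      rw [norm_smul, Complex.norm_I, one_mul]
      have h8 := hP2 r
      have h9 : ‖P r * D‖ ≤ 2 * (2 * B * ε') :=
        (norm_mul_le _ _).trans (mul_le_mul h8 h5 (norm_nonneg _) (by norm_num))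
      have h10 : ‖D * P r‖ ≤ (2 * B * ε') * 2 :=
        (norm_mul_le _ _).trans (mul_le_mul h5 h8 (norm_nonneg _) (by positivity))
      refine (norm_sub_le _ _).trans ?_
      linarith
    rw [h4]
    refine (norm_add_le _ _).trans ?_
    linarith
  -- the derivative of `U`
  have hUder : ∀ r ∈ Set.Icc 0 T, ‖Complex.I • ((U r : A) * evx (vl (cj π (U r)) ρ (st r)) hx)‖ ≤
      2 * (ε / 100) := by
    intro r hr
    rw [norm_smul, Complex.norm_I, one_mul, CStarRing.norm_coe_unitary_mul, ehx]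
    refine (hNIr r hr t (kap N) (N + 3) B hB hpt).trans ?_
    have h7 : 0 ≤ 2 * B := by linarith
    have h8 : 2 * B * n2 t ≤ 2 * B * ε' := mul_le_mul_of_nonneg_left hn2t.le h7
    linarith
  have h0T : (0 : ℝ) ∈ Set.Icc 0 T := ⟨le_rfl, hT0.le⟩
  have hTT : T ∈ Set.Icc 0 T := ⟨hT0.le, le_rfl⟩
  have hUT : ‖(U T : A) - 1‖ ≤ ε / 25 := by
    have h1 := Convex.norm_image_sub_le_of_norm_hasDerivWithin_le (fun r hr => hSol.dU r hr) hUder
      (convex_Icc 0 T) h0T hTT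
    rw [hSol.U0, sub_zero, Real.norm_of_nonneg hT0.le] at h1
    have h2 : ((1 : unitary A) : A) = 1 := rfl
    rw [h2] at h1
    refine h1.trans ?_
    nlinarith
  have hWT : ‖P T - s‖ ≤ ε := by
    have h1 : ∀ r ∈ Set.Icc 0 T, HasDerivWithinAt (fun r => Real.cos r • st r + Real.sin r • P r)
        (Real.sin r • (P' r - st r)) (Set.Icc 0 T) r := by
      intro r hr
      have h2 : HasDerivWithinAt (fun r => Real.cos r • st r)
          (Real.cos r • (- evx (vl (cj π (U r)) ρ (st r)) px) + (-Real.sin r) • st r)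
          (Set.Icc 0 T) r :=
        (Real.hasDerivAt_cos r).hasDerivWithinAt.smul (hSol.ds r hr)
      have h3 : HasDerivWithinAt (fun r => Real.sin r • P r)
          (Real.sin r • P' r + Real.cos r • P r) (Set.Icc 0 T) r :=
        (Real.hasDerivAt_sin r).hasDerivWithinAt.smul (hPder r hr)
      have h4 := h2.add h3
      rw [epx, ← hPdef] at h4
      have h5 : Real.cos r • -P r + -Real.sin r • st r + (Real.sin r • P' r + Real.cos r • P r) =
          Real.sin r • (P' r - st r) := by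
        rw [smul_neg, neg_smul, smul_sub]
        abel
      rw [h5] at h4
      exact h4
    have h2 : ∀ r ∈ Set.Icc 0 T, ‖Real.sin r • (P' r - st r)‖ ≤ ε / 5 := by
      intro r hr
      rw [norm_smul]
      have h3 : ‖Real.sin r‖ ≤ 1 := Real.abs_sin_le_one r
      have h4 := hmain r hr
      have h5 := norm_nonneg (P' r - st r)
      nlinarith
    have h3 := Convex.norm_image_sub_le_of_norm_hasDerivWithin_le h1 h2 (convex_Icc 0 T) h0T hTT
    simp only [Real.cos_zero, Real.sin_zero, one_smul, zero_smul, add_zero, sub_zero] at h3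
    rw [Real.norm_of_nonneg hT0.le] at h3
    have h4 : Real.cos T = 0 := by rw [hT]; exact Real.cos_pi_div_two
    have h5 : Real.sin T = 1 := by rw [hT]; exact Real.sin_pi_div_two
    rw [h4, h5, zero_smul, one_smul, zero_add, hst0] at h3
    refine h3.trans ?_
    nlinarith
  refine ⟨cj π (U T), st T, hLawr T hTT, hSol.ssa T, hGenr T hTT, ?_, pw u a X v 1,
    pw_noS u a X v 1, ?_⟩
  · intro x
    rw [cj_apply]
    have h1 : star (U T : A) * π x * (U T : A) - π x =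
        star (U T : A) * (π x * ((U T : A) - 1) - ((U T : A) - 1) * π x) := by
      have h2 : star (U T : A) * (U T : A) = 1 := Unitary.coe_star_mul_self (U T)
      calc star (U T : A) * π x * (U T : A) - π x =
          star (U T : A) * π x * (U T : A) - (star (U T : A) * (U T : A)) * π x := by
            rw [h2, one_mul]
        _ = star (U T : A) * (π x * ((U T : A) - 1) - ((U T : A) - 1) * π x) := by noncomm_ring
    rw [h1]
    have h3 : ‖star (U T : A) * (π x * ((U T : A) - 1) - ((U T : A) - 1) * π x)‖ =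
        ‖π x * ((U T : A) - 1) - ((U T : A) - 1) * π x‖ := by
      have h4 := CStarRing.norm_coe_unitary_mul (star (U T))
        (π x * ((U T : A) - 1) - ((U T : A) - 1) * π x)
      rwa [Unitary.coe_star] at h4
    rw [h3]
    have h5 : ‖π x * ((U T : A) - 1)‖ ≤ ‖π x‖ * (ε / 25) :=
      (norm_mul_le _ _).trans (mul_le_mul_of_nonneg_left hUT (norm_nonneg _))
    have h6 : ‖((U T : A) - 1) * π x‖ ≤ (ε / 25) * ‖π x‖ :=
      (norm_mul_le _ _).trans (mul_le_mul_of_nonneg_right hUT (norm_nonneg _))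
    refine (norm_sub_le _ _).trans ?_
    have h7 := norm_nonneg (π x)
    nlinarith
  · rw [ev_pw, ← hPdef]
    exact hWT

end Pool.Agent.H923R2.FP.T_STAGE
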