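import Pool.Agent.H923R2.FZ.Stubs3

set_option autoImplicit false
set_option linter.unusedSectionVars false

open scoped ComplexConjugate

noncomputable section

namespace Pool.Agent.H923R2.FZ.T_EX

open Pool.Agent.H923R2.FP Pool.Agent.H923R2.FZ

section gen

variable {H : Type} [NormedAddCommGroup H] [InnerProductSpace ℂ H] [CompleteSpace H]

/-- vector functional -/
def vf (Ω : H) : (H →L[ℂ] H) →ₗ[ℂ] ℂ where
  toFun T := inner ℂ Ω (T Ω)
  map_add' S T := by simp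
  map_smul' c T := by simp

lemma vf_apply (Ω : H) (T : H →L[ℂ] H) : vf Ω T = inner ℂ Ω (T Ω) := rfl

lemma vf_cont (Ω : H) : Continuous (vf Ω) := by
  have : Continuous fun T : H →L[ℂ] H => inner ℂ Ω (T Ω) := by fun_prop
  exact this

lemma vf_star_mul (Ω : H) (S T : H →L[ℂ] H) : vf Ω (star S * T) = inner ℂ (S Ω) (T Ω) := by
  rw [vf_apply, ContinuousLinearMap.star_eq_adjoint]
  exact ContinuousLinearMap.adjoint_inner_right S Ω (T Ω)

lemma vf_star (Ω : H) (T : H →L[ℂ] H) : vf Ω (star T) = conj (vf Ω T) := by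
  have := vf_star_mul Ω T 1
  rw [mul_one] at this
  rw [this, vf_apply, inner_conj_symm]
  rfl

variable {K : Type} {D : K → Type} [∀ k, CStarAlgebra (D k)]

/-- the dense subalgebra -/
def S0 (Lam : ∀ k, D k →⋆ₐ[ℂ] (H →L[ℂ] H)) : StarSubalgebra ℂ (H →L[ℂ] H) :=
  StarAlgebra.adjoin ℂ (⋃ k, Set.range (Lam k))

/-- its closure -/
def MM (Lam : ∀ k, D k →⋆ₐ[ℂ] (H →L[ℂ] H)) : StarSubalgebra ℂ (H →L[ℂ] H) :=
  (S0 Lam).topologicalClosure

instance MM_closed (Lam : ∀ k, D k →⋆ₐ[ℂ] (H →L[ℂ] H)) :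
    IsClosed ((MM Lam : StarSubalgebra ℂ (H →L[ℂ] H)) : Set (H →L[ℂ] H)) :=
  (S0 Lam).isClosed_topologicalClosure

lemma lift_list (Lam : ∀ k, D k →⋆ₐ[ℂ] (H →L[ℂ] H)) (w : List (K × (H →L[ℂ] H)))
    (hw : ∀ z ∈ w, z.2 ∈ (Lam z.1).range) :
    ∃ l : List (Σ k, D k), l.map (fun z => (z.1, Lam z.1 z.2)) = w := by
  induction w with
  | nil => exact ⟨[], rfl⟩
  | cons z w ih =>
    obtain ⟨l, hl⟩ := ih fun y hy => hw y (List.mem_cons_of_mem _ hy)
    obtain ⟨x, hx⟩ := hw z List.mem_cons_self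
    refine ⟨⟨z.1, x⟩ :: l, ?_⟩
    rw [List.map_cons, hl]
    congr 1
    exact Prod.ext rfl hx

variable (Ω : H) (hΩ : ‖Ω‖ = 1) (t : ∀ k, D k →ₗ[ℂ] ℂ)
  (ht : ∀ k x y, t k (x * y) = t k (y * x)) (Lam : ∀ k, D k →⋆ₐ[ℂ] (H →L[ℂ] H))
  (h1 : ∀ k x, inner ℂ Ω (Lam k x Ω) = t k x)
  (h2 : ∀ l : List (Σ k, D k), l ≠ [] → l.IsChain (fun a b => a.1 ≠ b.1) →
    (∀ z ∈ l, t z.1 z.2 = 0) → inner ℂ Ω ((l.map fun z => Lam z.1 z.2).prod Ω) = 0)

include h1 h2 in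
lemma freeL (w : List (K × (H →L[ℂ] H))) (hne : w ≠ [])
    (hw : ∀ z ∈ w, z.2 ∈ (Lam z.1).range ∧ vf Ω z.2 = 0)
    (hc : w.IsChain (fun x y => x.1 ≠ y.1)) : vf Ω ((w.map Prod.snd).prod) = 0 := by
  obtain ⟨l, rfl⟩ := lift_list Lam w fun z hz => (hw z hz).1
  rw [vf_apply, List.map_map]
  refine h2 l ?_ ?_ ?_
  · rintro rfl; exact hne rfl
  · rw [List.isChain_map] at hc
    exact hc
  · intro z hz
    have := (hw _ (List.mem_map_of_mem hz)).2
    rw [← h1 z.1 z.2]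
    exact this

include hΩ ht h1 h2 in
lemma comm0 (hTRC : S_TRC) : ∀ x ∈ S0 Lam, ∀ y ∈ S0 Lam, vf Ω (x * y) = vf Ω (y * x) := by
  have hle : S0 Lam ≤ ⨆ k, (Lam k).range := by
    refine StarAlgebra.adjoin_le (Set.iUnion_subset fun k => ?_)
    rintro _ ⟨x, rfl⟩
    exact (le_iSup (fun k => (Lam k).range) k) ⟨x, rfl⟩
  have h := hTRC (H →L[ℂ] H) (vf Ω) (by
    rw [vf_apply]
    change inner ℂ Ω Ω = 1
    rw [inner_self_eq_norm_sq_to_K, hΩ]; simp) K (fun k => (Lam k).range)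
    (fun w hne hw hc => freeL Ω t Lam h1 h2 w hne hw hc) (by
      rintro k _ ⟨x, rfl⟩ _ ⟨y, rfl⟩
      have e : ∀ a b : D k, vf Ω (Lam k a * Lam k b) = t k (a * b) := by
        intro a b
        rw [← map_mul, ← h1 k (a * b)]; rfl
      exact (e x y).trans ((ht k x y).trans (e y x).symm))
  exact fun x hx y hy => h x (hle hx) y (hle hy)

include hΩ ht h1 h2 in
lemma comm1 (hTRC : S_TRC) : ∀ x ∈ MM Lam, ∀ y ∈ MM Lam, vf Ω (x * y) = vf Ω (y * x) := by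
  have h0 := comm0 Ω hΩ t ht Lam h1 h2 hTRC
  have hcl : ∀ x, x ∈ MM Lam ↔ x ∈ closure (S0 Lam : Set (H →L[ℂ] H)) := fun x => Iff.rfl
  have hv := vf_cont Ω
  have e1 : ∀ x ∈ MM Lam, ∀ y ∈ S0 Lam, vf Ω (x * y) = vf Ω (y * x) := by
    intro x hx y hy
    have : Set.EqOn (fun x => vf Ω (x * y)) (fun x => vf Ω (y * x)) (S0 Lam : Set (H →L[ℂ] H)) :=
      fun x hx => h0 x hx y hy
    exact this.closure (by fun_prop) (by fun_prop) ((hcl x).1 hx)
  intro x hx y hy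
  have : Set.EqOn (fun y => vf Ω (x * y)) (fun y => vf Ω (y * x)) (S0 Lam : Set (H →L[ℂ] H)) :=
    fun y hy => e1 x hx y hy
  exact this.closure (by fun_prop) (by fun_prop) ((hcl y).1 hy)

include hΩ ht h1 h2 in
lemma faith1 (hTRC : S_TRC) (h3 : ∀ (ξ : H) (ε : ℝ), 0 < ε →
      ∃ y ∈ StarAlgebra.adjoin ℂ (⋃ k, Set.range (Lam k)), ‖ξ - y Ω‖ < ε)
    (T : H →L[ℂ] H) (hT : T ∈ MM Lam) (h0 : (vf Ω (star T * T)).re = 0) : T = 0 := by
  have hc := comm1 Ω hΩ t ht Lam h1 h2 hTRC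
  have hTΩ : T Ω = 0 := by
    rw [vf_star_mul] at h0
    have : RCLike.re (inner ℂ (T Ω) (T Ω)) = 0 := h0
    rw [← norm_sq_eq_re_inner] at this
    exact norm_eq_zero.1 (pow_eq_zero_iff (two_ne_zero)|>.1 this)
  have hle : ∀ y ∈ S0 Lam, y ∈ MM Lam := fun y hy => (S0 Lam).le_topologicalClosure hy
  have hTy : ∀ y ∈ S0 Lam, T (y Ω) = 0 := by
    intro y hy
    have hyM := hle y hy
    have e1 : vf Ω (star (T * y) * (T * y)) = 0 := by
      have a1 : star (T * y) * (T * y) = star y * (star T * T * y) := by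
        rw [star_mul]; noncomm_ring
      rw [a1, hc (star y) (star_mem hyM) (star T * T * y)
        (mul_mem (mul_mem (star_mem hT) hT) hyM)]
      have a2 : star T * T * y * star y = star T * (T * y * star y) := by noncomm_ring
      rw [a2, vf_star_mul, hTΩ, inner_zero_left]
    rw [vf_star_mul] at e1
    exact inner_self_eq_zero.1 e1
  ext ξ
  rw [ContinuousLinearMap.zero_apply]
  rw [← norm_le_zero_iff]
  refine le_of_forall_pos_le_add fun ε hε => ?_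
  obtain ⟨y, hy, hyε⟩ := h3 ξ (ε / (‖T‖ + 1)) (by positivity)
  have : T ξ = T (ξ - y Ω) := by
    rw [map_sub, hTy y hy, sub_zero]
  rw [this, zero_add]
  calc ‖T (ξ - y Ω)‖ ≤ ‖T‖ * ‖ξ - y Ω‖ := T.le_opNorm _
    _ ≤ (‖T‖ + 1) * (ε / (‖T‖ + 1)) := by
        gcongr
        linarith [norm_nonneg T]
    _ = ε := by
        have := norm_nonneg T
        field_simp

/-- the state -/
def tt : MM Lam →ₗ[ℂ] ℂ where
  toFun x := vf Ω x.1
  map_add' x y := by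
    rw [← map_add]; rfl
  map_smul' c x := by
    rw [RingHom.id_apply, ← map_smul]; rfl

/-- the embeddings -/
def ee (k : K) : D k →⋆ₐ[ℂ] MM Lam :=
  (Lam k).codRestrict (MM Lam) fun x =>
    (S0 Lam).le_topologicalClosure (StarAlgebra.subset_adjoin ℂ _ (Set.mem_iUnion.2 ⟨k, x, rfl⟩))

lemma ee_coe (k : K) (x : D k) : (ee Lam k x).1 = Lam k x := rfl

lemma coe_prod (l : List (MM Lam)) : (l.prod).1 = (l.map fun x => x.1).prod := by
  induction l with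
  | nil => rfl
  | cons x l ih =>
    rw [List.prod_cons, List.map_cons, List.prod_cons, ← ih]
    rfl

include hΩ ht h1 h2 in
theorem rfp (hTRC : S_TRC) (h3 : ∀ (ξ : H) (ε : ℝ), 0 < ε →
      ∃ y ∈ StarAlgebra.adjoin ℂ (⋃ k, Set.range (Lam k)), ‖ξ - y Ω‖ < ε) :
    RFP D (fun k => t k) (tt Ω Lam) (ee Lam) := by
  constructor
  · constructor
    · change vf Ω (1 : H →L[ℂ] H) = 1
      rw [vf_apply]
      change inner ℂ Ω Ω = 1
      rw [inner_self_eq_norm_sq_to_K, hΩ]; simp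
    · intro x y
      exact comm1 Ω hΩ t ht Lam h1 h2 hTRC x.1 x.2 y.1 y.2
    · intro x
      exact vf_star Ω x.1
    · intro x
      change 0 ≤ (vf Ω (star x.1 * x.1)).re
      rw [vf_star_mul]
      exact inner_self_nonneg (𝕜 := ℂ)
    · intro x hx
      exact Subtype.ext (faith1 Ω hΩ t ht Lam h1 h2 hTRC h3 x.1 x.2 hx)
    · intro x
      change ‖vf Ω x.1‖ ≤ ‖x.1‖
      rw [vf_apply]
      calc ‖(inner ℂ Ω (x.1 Ω) : ℂ)‖ ≤ ‖Ω‖ * ‖x.1 Ω‖ := norm_inner_le_norm _ _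
        _ ≤ 1 * (‖x.1‖ * 1) := by
            rw [hΩ]
            gcongr
            calc ‖x.1 Ω‖ ≤ ‖x.1‖ * ‖Ω‖ := x.1.le_opNorm Ω
              _ = ‖x.1‖ * 1 := by rw [hΩ]
        _ = ‖x.1‖ := by ring
  · exact h1
  · intro w hne hw hc
    change vf Ω ((w.map Prod.snd).prod).1 = 0
    rw [coe_prod, List.map_map]
    have e : w.map ((fun x : MM Lam => x.1) ∘ Prod.snd) =
        (w.map fun z => (z.1, z.2.1)).map Prod.snd := by
      rw [List.map_map]; rfl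
    rw [e]
    refine freeL Ω t Lam h1 h2 _ ?_ ?_ ?_
    · intro h; exact hne (List.map_eq_nil_iff.1 h)
    · intro z hz
      obtain ⟨y, hy, rfl⟩ := List.mem_map.1 hz
      obtain ⟨⟨x, hx⟩, h0⟩ := hw y hy
      refine ⟨⟨x, ?_⟩, h0⟩
      exact congrArg Subtype.val hx
    · rw [List.isChain_map]
      exact hc
  · rw [eq_top_iff]
    intro m _
    change m ∈ closure ((StarAlgebra.adjoin ℂ (⋃ k, Set.range (ee Lam k)) :
      StarSubalgebra ℂ (MM Lam)) : Set (MM Lam))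
    rw [closure_subtype]
    have hm : m.1 ∈ closure (S0 Lam : Set (H →L[ℂ] H)) := m.2
    refine closure_mono ?_ hm
    have h5 := StarAlgHom.map_adjoin (MM Lam).subtype (⋃ k, Set.range (ee Lam k))
    have h6 : (MM Lam).subtype '' (⋃ k, Set.range (ee Lam k)) = ⋃ k, Set.range (Lam k) := by
      rw [Set.image_iUnion]
      refine Set.iUnion_congr fun k => ?_
      rw [← Set.range_comp]
      rfl
    rw [h6] at h5
    have h7 : S0 Lam = (StarAlgebra.adjoin ℂ (⋃ k, Set.range (ee Lam k))).map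
      (MM Lam).subtype := h5.symm
    rw [h7]
    rintro _ ⟨x, hx, rfl⟩
    exact ⟨x, hx, rfl⟩

end gen

theorem t_EX (hEXG : S_EXG) (hEXL : S_EXL) (hEXF : S_EXF) (hEXC : S_EXC) (hTRC : S_TRC) :
    S_EX := by
  classical
  intro K D inst t ht
  choose I lam hlam1 hlam2 using fun k => hEXG (D k) (t k) (ht k)
  obtain ⟨Lam, hLam⟩ := hEXL K D inst I lam
  obtain ⟨h1, h2⟩ := hEXF K D inst I t lam Lam hlam1 hLam
  have h3 := hEXC K D inst I lam Lam hlam2 hLam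
  have hΩ : ‖dl2 (Wd.nil I)‖ = 1 := by
    unfold dl2
    rw [lp.norm_single (by norm_num)]
    simp
  exact ⟨MM Lam, inferInstance, tt (dl2 (Wd.nil I)) Lam, ee Lam,
    rfp (dl2 (Wd.nil I)) hΩ t (fun k => (ht k).comm) Lam h1 h2 hTRC h3⟩

end Pool.Agent.H923R2.FZ.T_EX
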