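import Pool.Agent.H923R2.FZ.JS

set_option autoImplicit false
set_option linter.unusedSectionVars false

open scoped ComplexConjugate ComplexOrder

noncomputable section

namespace Pool.Agent.H923R2.FZ.T_GNSF

open Pool.Agent.H923R2.FP Pool.Agent.H923R2.FZ

section one

variable {A : Type} [CStarAlgebra A] (φ : A →ₗ[ℂ] ℂ) (h1 : φ 1 = 1)
  (h0 : ∀ x, 0 ≤ φ (star x * x))

lemma exists_sq (x : A) : ∃ y : A, star y * y = algebraMap ℝ A (‖x‖ ^ 2) - star x * x := by
  let _ := CStarAlgebra.spectralOrder A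
  let _ := CStarAlgebra.spectralOrderedRing A
  have h : 0 ≤ algebraMap ℝ A (‖x‖ ^ 2) - star x * x :=
    sub_nonneg.2 CStarAlgebra.star_mul_le_algebraMap_norm_sq
  obtain ⟨y, hy⟩ := CStarAlgebra.nonneg_iff_eq_star_mul_self.1 h
  exact ⟨y, hy.symm⟩

include h1 h0 in
lemma phi_star (x : A) : φ (star x) = conj (φ x) := by
  have e1 := h0 (x + 1)
  have e2 := h0 (Complex.I • x + 1)
  have e3 := h0 x
  have a1 : star (x + 1) * (x + 1) = star x * x + star x + x + 1 := by
    rw [star_add, star_one]; noncomm_ring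
  have a2 : star (Complex.I • x + 1) * (Complex.I • x + 1) =
      star x * x + (-Complex.I) • star x + Complex.I • x + 1 := by
    rw [star_add, star_one, star_smul]
    simp only [add_mul, mul_add, one_mul, mul_one, smul_mul_smul_comm]
    simp only [Complex.star_def, Complex.conj_I, neg_mul, Complex.I_mul_I, neg_neg, one_smul]
    abel
  rw [a1] at e1
  rw [a2] at e2
  simp only [map_add, map_smul, smul_eq_mul, h1] at e1 e2
  rw [Complex.le_def] at e1 e2 e3
  have b1 := e1.2
  have b2 := e2.2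
  have b3 := e3.2
  simp at b1 b2 b3
  apply Complex.ext
  · simp
    linarith
  · simp
    linarith

include h1 h0 in
lemma phi_sq (x : A) : Complex.normSq (φ x) ≤ (φ (star x * x)).re := by
  have e1 := h0 (x - (φ x) • 1)
  have hs := phi_star φ h1 h0 x
  have a1 : star (x - (φ x) • (1 : A)) * (x - (φ x) • (1 : A)) =
      star x * x - (φ x) • star x - (conj (φ x)) • x + (conj (φ x) * φ x) • 1 := by
    rw [star_sub, star_smul, star_one]
    simp only [sub_mul, mul_sub, smul_mul_assoc, mul_smul_comm, one_mul, mul_one]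
    simp only [Complex.star_def, smul_sub, smul_smul]
    rw [mul_comm (φ x) (conj (φ x))]
    abel
  rw [a1] at e1
  simp only [map_add, map_sub, map_smul, smul_eq_mul, h1, hs] at e1
  have e2 := (Complex.le_def.1 e1).1
  simp [Complex.mul_re] at e2
  rw [Complex.normSq_apply]
  nlinarith

include h1 h0 in
lemma phi_bound (x : A) : ‖φ x‖ ≤ ‖x‖ := by
  obtain ⟨y, hy⟩ := exists_sq x
  have e1 := h0 y
  rw [hy, map_sub] at e1
  have e2 := (Complex.le_def.1 e1).1
  have e3 : φ (algebraMap ℝ A (‖x‖ ^ 2)) = ((‖x‖ ^ 2 : ℝ) : ℂ) := by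
    have : algebraMap ℝ A (‖x‖ ^ 2) = ((‖x‖ ^ 2 : ℝ) : ℂ) • (1 : A) := by
      rw [Algebra.algebraMap_eq_smul_one]
      rw [Complex.coe_smul]
    rw [this, map_smul, h1, smul_eq_mul, mul_one]
  rw [e3, Complex.sub_re, Complex.ofReal_re, Complex.zero_re] at e2
  have e4 := phi_sq φ h1 h0 x
  have e5 : ‖φ x‖ ^ 2 ≤ ‖x‖ ^ 2 := by
    rw [← Complex.normSq_eq_norm_sq]
    linarith
  exact (abs_le_of_sq_le_sq' e5 (norm_nonneg _)).2

include h1 h0 in
lemma phi_cont : Continuous φ :=
  AddMonoidHomClass.continuous_of_bound φ 1 fun x => by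
    rw [one_mul]; exact phi_bound φ h1 h0 x

include h0 in
lemma phi_zero (hc : ∀ x y, φ (x * y) = φ (y * x)) (a : A) (ha : φ (star a * a) = 0) (x : A) :
    φ (star (a * x) * (a * x)) = 0 := by
  obtain ⟨y, hy⟩ := exists_sq (star x)
  have e1 := h0 (y * star a)
  have a1 : star (y * star a) * (y * star a) = a * (star y * y) * star a := by
    rw [star_mul, star_star]; noncomm_ring
  rw [a1, hy, star_star, mul_sub, sub_mul, map_sub] at e1
  have a2 : φ (a * algebraMap ℝ A (‖star x‖ ^ 2) * star a) = 0 := by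
    have : a * algebraMap ℝ A (‖star x‖ ^ 2) * star a =
        ((‖star x‖ ^ 2 : ℝ) : ℂ) • (a * star a) := by
      rw [Algebra.algebraMap_eq_smul_one, mul_smul_comm, mul_one, smul_mul_assoc,
        Complex.coe_smul]
    rw [this, map_smul, hc a (star a), ha, smul_zero]
  rw [a2, zero_sub] at e1
  have e3 := h0 (a * x)
  have a3 : φ (star (a * x) * (a * x)) = φ (a * (x * star x) * star a) := by
    rw [hc]
    congr 1
    rw [star_mul]; noncomm_ring
  rw [a3] at e3 ⊢
  exact le_antisymm (neg_nonneg.1 e1) e3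

end one

lemma lift_list {J A : Type} [CStarAlgebra A] {D : J → Type} [∀ j, CStarAlgebra (D j)]
    (e : ∀ j, D j →⋆ₐ[ℂ] A) (w : List (J × A)) (hw : ∀ z ∈ w, z.2 ∈ (e z.1).range) :
    ∃ l : List (Σ j, D j), l.map (fun z => (z.1, e z.1 z.2)) = w := by
  induction w with
  | nil => exact ⟨[], rfl⟩
  | cons z w ih =>
    obtain ⟨l, hl⟩ := ih fun y hy => hw y (List.mem_cons_of_mem _ hy)
    obtain ⟨x, hx⟩ := hw z List.mem_cons_self
    refine ⟨⟨z.1, x⟩ :: l, ?_⟩
    rw [List.map_cons, hl]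
    congr 1
    exact Prod.ext rfl hx

theorem t_GNSF (hTRC : S_TRC) : S_GNSF := by
  intro J D _ t A _ φ e ht h
  have hcont := phi_cont φ h.one h.nonneg
  have hfree : FreeFam φ fun j => (e j).range := by
    intro w hne hw hc
    obtain ⟨l, rfl⟩ := lift_list e w fun z hz => (hw z hz).1
    rw [List.map_map]
    refine h.free l ?_ ?_ ?_
    · rintro rfl; exact hne rfl
    · rw [List.isChain_map] at hc
      exact hc
    · intro z hz
      have := (hw _ (List.mem_map_of_mem hz)).2
      rw [← h.tr z.1 z.2]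
      exact this
  have hT := hTRC A φ h.one J (fun j => (e j).range) hfree (by
    rintro j _ ⟨x, rfl⟩ _ ⟨y, rfl⟩
    have e1 : ∀ a b : D j, φ (e j a * e j b) = t j (a * b) := by
      intro a b
      rw [← map_mul, h.tr]
    exact (e1 x y).trans ((ht j x y).trans (e1 y x).symm))
  have hle : StarAlgebra.adjoin ℂ (⋃ j, Set.range (e j)) ≤ ⨆ j, (e j).range := by
    refine StarAlgebra.adjoin_le (Set.iUnion_subset fun j => ?_)
    rintro _ ⟨x, rfl⟩
    exact (le_iSup (fun j => (e j).range) j) ⟨x, rfl⟩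
  have hd : Dense ((StarAlgebra.adjoin ℂ (⋃ j, Set.range (e j)) : StarSubalgebra ℂ A) : Set A) := by
    intro x
    have : x ∈ (StarAlgebra.adjoin ℂ (⋃ j, Set.range (e j))).topologicalClosure := by
      rw [h.gen]; trivial
    exact this
  have hc0 : ∀ x, ∀ y ∈ StarAlgebra.adjoin ℂ (⋃ j, Set.range (e j)), φ (x * y) = φ (y * x) := by
    intro x y hy
    have : Set.EqOn (fun x => φ (x * y)) (fun x => φ (y * x))
        ((StarAlgebra.adjoin ℂ (⋃ j, Set.range (e j)) : StarSubalgebra ℂ A) : Set A) :=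
      fun x hx => hT x (hle hx) y (hle hy)
    exact this.closure (by fun_prop) (by fun_prop) (hd x)
  have hc : ∀ x y, φ (x * y) = φ (y * x) := by
    intro x y
    have : Set.EqOn (fun y => φ (x * y)) (fun y => φ (y * x))
        ((StarAlgebra.adjoin ℂ (⋃ j, Set.range (e j)) : StarSubalgebra ℂ A) : Set A) :=
      fun y hy => hc0 x y hy
    exact this.closure (by fun_prop) (by fun_prop) (hd y)
  refine ⟨⟨h.one, hc, phi_star φ h.one h.nonneg, fun x => (Complex.le_def.1 (h.nonneg x)).1, ?_,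
    phi_bound φ h.one h.nonneg⟩, h.tr, hfree, h.gen⟩
  intro a ha
  refine h.gns a fun x => phi_zero φ h.nonneg hc a ?_ x
  exact Complex.ext ha (Complex.le_def.1 (h.nonneg a)).2.symm

end Pool.Agent.H923R2.FZ.T_GNSF
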