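import Pool.Agent.H923R2.FZ.Stubs1

set_option autoImplicit false

open Finset

namespace Pool.Agent.H923R2.FZ.T_POSE

section core
variable {B : Type} [CStarAlgebra B]

lemma le_of_unit [PartialOrder B] [StarOrderedRing B] (a b : B)
    (ha : 0 ≤ a) (ha1 : a ≤ 1) (hb : 0 ≤ b) (hab : b * a = a) : a ≤ b := by
  have hsa : star a = a := (IsSelfAdjoint.of_nonneg ha).star_eq
  have hsb : star b = b := (IsSelfAdjoint.of_nonneg hb).star_eq
  have hba : a * b = a := by
    have := congrArg star hab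
    rw [star_mul, hsa, hsb] at this
    exact this
  have hc : Commute b (1 - a) := by
    unfold Commute SemiconjBy
    rw [mul_sub, sub_mul, hab, hba, mul_one, one_mul]
  have h := Commute.mul_nonneg hb (sub_nonneg.2 ha1) hc
  rw [mul_sub, mul_one, hab] at h
  exact sub_nonneg.1 h

lemma norm_le_of_le [PartialOrder B] [StarOrderedRing B] (d : B) (hd : IsSelfAdjoint d) (r : ℝ) (hr : 0 ≤ r)
    (h1 : d ≤ algebraMap ℝ B r) (h2 : -d ≤ algebraMap ℝ B r) : ‖d‖ ≤ r := by
  rcases subsingleton_or_nontrivial B with hs | hs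
  · rw [Subsingleton.elim d 0, norm_zero]; exact hr
  · rcases CStarAlgebra.norm_or_neg_norm_mem_spectrum (a := d) hd with h | h
    · exact (le_algebraMap_iff_spectrum_le (ha := hd)).1 h1 _ h
    · have h3 : algebraMap ℝ B (-r) ≤ d := by
        rw [map_neg]; exact neg_le.1 h2
      have := (algebraMap_le_iff_le_spectrum (ha := hd)).1 h3 _ h
      linarith

/-- telescoping clamps -/
lemma tele (t : ℝ) (ht : 0 ≤ t) (L : ℕ) (h : t ≤ L) :
    ∑ j ∈ range L, max 0 (min 1 (t - ((L : ℝ) - 1 - j))) = t := by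
  have h1 : ∀ i : ℕ, max 0 (min 1 (t - (i : ℝ))) = min t ((i + 1 : ℕ) : ℝ) - min t (i : ℝ) := by
    intro i
    push_cast
    rcases le_total t i with h | h
    · rw [min_eq_left h, min_eq_left (show t ≤ (i : ℝ) + 1 by linarith)]
      rw [sub_self]
      apply max_eq_left
      exact (min_le_right _ _).trans (by linarith)
    · rcases le_total t (i + 1) with h' | h'
      · rw [min_eq_left h', min_eq_right h, min_eq_right (show t - (i : ℝ) ≤ 1 by linarith), max_eq_right (by linarith)]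
      · rw [min_eq_right h', min_eq_right h, min_eq_left (show 1 ≤ t - (i : ℝ) by linarith), max_eq_right (by linarith)]
        ring
  rw [← Finset.sum_range_reflect]
  have h2 : ∀ j ∈ range L, max 0 (min 1 (t - ((L : ℝ) - 1 - ((L - 1 - j : ℕ) : ℝ))))
      = min t ((j + 1 : ℕ) : ℝ) - min t (j : ℝ) := by
    intro j hj
    rw [← h1 j]
    have hj' := mem_range.1 hj
    have : ((L - 1 - j : ℕ) : ℝ) = (L : ℝ) - 1 - j := by
      rw [Nat.cast_sub (by omega), Nat.cast_sub (by omega)]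
      simp
    rw [this]
    congr 3
    ring
  rw [Finset.sum_congr rfl h2, Finset.sum_range_sub (fun i : ℕ => min t (i : ℝ))]
  simp [h, ht]

lemma half [PartialOrder B] [StarOrderedRing B] (x y : B) (L : ℕ) (X Y : ℕ → B)
    (hx : (L : ℝ) • x = ∑ j ∈ range L, X j) (hy : (L : ℝ) • y = ∑ j ∈ range L, Y j)
    (hX1 : ∀ j, X j ≤ 1) (hY0 : ∀ j, 0 ≤ Y j)
    (hXY : ∀ j, j + 20 < L → X j ≤ Y (j + 20)) :
    (L : ℝ) • x ≤ (L : ℝ) • y + algebraMap ℝ B 20 := by
  have h01 : (0 : B) ≤ 1 := zero_le_one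
  set Z : ℕ → B := fun i => if i < L then Y i else 1 with hZ
  have hZ0 : ∀ i, 0 ≤ Z i := by
    intro i
    simp only [hZ]
    split_ifs
    · exact hY0 i
    · exact h01
  have h1 : ∑ j ∈ range L, X j ≤ ∑ j ∈ range L, Z (20 + j) := by
    refine Finset.sum_le_sum fun j _ => ?_
    simp only [hZ]
    split_ifs with h
    · rw [add_comm 20 j]; exact hXY j (by omega)
    · exact hX1 j
  have h2 : ∑ i ∈ range (20 + L), Z i = ∑ i ∈ range 20, Z i + ∑ j ∈ range L, Z (20 + j) :=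
    Finset.sum_range_add _ _ _
  have h3 : ∑ i ∈ range (L + 20), Z i = ∑ i ∈ range L, Z i + ∑ j ∈ range 20, Z (L + j) :=
    Finset.sum_range_add _ _ _
  have h4 : ∑ i ∈ range L, Z i = ∑ i ∈ range L, Y i := by
    refine Finset.sum_congr rfl fun i hi => ?_
    simp only [hZ]
    rw [if_pos (mem_range.1 hi)]
  have h5 : ∑ j ∈ range 20, Z (L + j) = algebraMap ℝ B 20 := by
    have : ∀ j ∈ range 20, Z (L + j) = 1 := by
      intro j _
      simp only [hZ]
      rw [if_neg (by omega)]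
    rw [Finset.sum_congr rfl this, Finset.sum_const, card_range, nsmul_eq_mul, mul_one]
    rw [map_ofNat]
    norm_num
  have h6 : 0 ≤ ∑ i ∈ range 20, Z i := Finset.sum_nonneg fun i _ => hZ0 i
  rw [hx, hy, ← h4, ← h5, ← h3, add_comm L 20, h2]
  exact h1.trans (le_add_of_nonneg_left h6)

lemma core [PartialOrder B] [StarOrderedRing B] (x y : B) (hxs : IsSelfAdjoint x) (hys : IsSelfAdjoint y)
    (L : ℕ) (hL : 0 < L) (X Y : ℕ → B)
    (hx : (L : ℝ) • x = ∑ j ∈ range L, X j) (hy : (L : ℝ) • y = ∑ j ∈ range L, Y j)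
    (hX0 : ∀ j, 0 ≤ X j) (hX1 : ∀ j, X j ≤ 1) (hY0 : ∀ j, 0 ≤ Y j) (hY1 : ∀ j, Y j ≤ 1)
    (hXY : ∀ j, j + 20 < L → Y (j + 20) * X j = X j)
    (hYX : ∀ j, j + 20 < L → X (j + 20) * Y j = Y j) :
    ‖x - y‖ ≤ 20 / L := by
  have hL' : (0 : ℝ) < L := by exact_mod_cast hL
  have a1 := half x y L X Y hx hy hX1 hY0 fun j hj => le_of_unit _ _ (hX0 j) (hX1 j) (hY0 _) (hXY j hj)
  have a2 := half y x L Y X hy hx hY1 hX0 fun j hj => le_of_unit _ _ (hY0 j) (hY1 j) (hX0 _) (hYX j hj)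
  have h : ‖(L : ℝ) • (x - y)‖ ≤ 20 := by
    refine norm_le_of_le _ ?_ 20 (by norm_num) ?_ ?_
    · exact (IsSelfAdjoint.all (L : ℝ)).smul (hxs.sub hys)
    · rw [smul_sub]; exact sub_le_iff_le_add'.2 a1
    · rw [smul_sub, neg_sub]; exact sub_le_iff_le_add'.2 a2
  rw [norm_smul, Real.norm_of_nonneg hL'.le] at h
  rw [le_div_iff₀ hL']
  linarith

lemma chi_cont (L j : ℕ) : Continuous (chi L j) := by
  unfold chi
  fun_prop

lemma sumX (x : B) (hx : IsSelfAdjoint x) (hs : spectrum ℝ x ⊆ Set.Icc 0 1) (L : ℕ) :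
    (L : ℝ) • x = ∑ j ∈ range L, cfc (chi L j) x := by
  rw [← cfc_sum (fun j => chi L j) x (range L) (fun j _ => (chi_cont L j).continuousOn)]
  have h1 : cfc (fun t : ℝ => (L : ℝ) * t) x = (L : ℝ) • x := by
    rw [cfc_const_mul (L : ℝ) (fun t => t) x (by fun_prop), cfc_id' ℝ x hx]
  rw [← h1]
  refine cfc_congr fun t ht => ?_
  have h2 := hs ht
  have h0 : (0 : ℝ) ≤ L := Nat.cast_nonneg L
  simp only [Finset.sum_apply]
  rw [← tele ((L : ℝ) * t) (mul_nonneg h0 h2.1) L (by nlinarith [h2.2])]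
  refine Finset.sum_congr rfl fun j _ => ?_
  unfold chi
  congr 2
  ring

end core

theorem t_POSE : S_POSE := by
  intro B _ x y L hx hy hL h
  letI := CStarAlgebra.spectralOrder B
  letI := CStarAlgebra.spectralOrderedRing B
  refine core x y hx.1 hy.1 L (by omega) (fun j => cfc (chi L j) x) (fun j => cfc (chi L j) y)
    (sumX x hx.1 hx.2 L) (sumX y hy.1 hy.2 L) ?_ ?_ ?_ ?_
    (fun j hj => (h j hj).1) (fun j hj => (h j hj).2)
  · exact fun j => cfc_nonneg fun t _ => le_max_left _ _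
  · exact fun j => cfc_le_one _ _ fun t _ => max_le zero_le_one (min_le_left _ _)
  · exact fun j => cfc_nonneg fun t _ => le_max_left _ _
  · exact fun j => cfc_le_one _ _ fun t _ => max_le zero_le_one (min_le_left _ _)

end Pool.Agent.H923R2.FZ.T_POSE
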