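import Pool.Agent.H752.SV.Stubs

set_option autoImplicit false

namespace Pool.Agent.H752.SV

open Pool.Agent.NPC Pool.Agent.H620R2.Gauge

namespace V11

theorem eval_mono' (p : Polynomial ℕ) {a b : ℕ} (h : a ≤ b) : p.eval a ≤ p.eval b := by
  rw [Polynomial.eval_eq_sum_range, Polynomial.eval_eq_sum_range]
  apply Finset.sum_le_sum
  intro i _
  exact Nat.mul_le_mul_left _ (Nat.pow_le_pow_left h i)

theorem lam_lt {q : ℕ} (hq : 2 ≤ q) (p : Polynomial ℕ) (r : ℕ) {i j : ℕ} (h : i < j) :
    lam q p r i < lam q p r j := by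
  unfold lam
  have h1 : p.eval (q ^ (i + 1)) ≤ p.eval (q ^ (j + 1)) :=
    eval_mono' p (Nat.pow_le_pow_right (by omega) (by omega))
  have h2 : q * (i + 1) ≤ q * (j + 1) := Nat.mul_le_mul_left _ (by omega)
  omega

theorem lam_inj {q : ℕ} (hq : 2 ≤ q) (p : Polynomial ℕ) (r : ℕ) {i j : ℕ}
    (h : lam q p r i = lam q p r j) : i = j := by
  rcases lt_trichotomy i j with h1 | h1 | h1
  · have := lam_lt hq p r h1
    omega
  · exact h1
  · have := lam_lt hq p r h1
    omega

theorem lam_mod (q : ℕ) (p : Polynomial ℕ) {r : ℕ} (hr : r < 2) (i : ℕ) :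
    lam q p r i % 2 = r := by
  unfold lam
  omega

theorem sum_range_list (f : ℕ → ℕ) (n : ℕ) :
    ((List.range n).map f).sum = ∑ i ∈ Finset.range n, f i := by
  induction n with
  | zero => simp
  | succ n ih =>
    rw [List.range_succ, List.map_append, List.sum_append, ih, Finset.sum_range_succ]
    simp

theorem dg_zero {q : ℕ} (hq : 2 ≤ q) {n i : ℕ} (h : n.size ≤ i) : dg q n i = 0 := by
  unfold dg
  have h1 : n < 2 ^ i := lt_of_lt_of_le (Nat.lt_size_self n) (Nat.pow_le_pow_right (by norm_num) h)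
  have h2 : 2 ^ i ≤ q ^ i := Nat.pow_le_pow_left hq i
  rw [Nat.div_eq_of_lt (lt_of_lt_of_le h1 h2), Nat.zero_mod]

section

variable {F : Type} [Field F] [Fintype F] (φ : F ≃ Fin (Fintype.card F))

theorem phi_eq {a b : F} : (φ a : ℕ) = φ b ↔ a = b := by
  constructor
  · intro h
    exact φ.injective (Fin.ext h)
  · rintro rfl
    rfl

theorem phi_zero (h0 : (φ 0 : ℕ) = 0) {a : F} : (φ a : ℕ) = 0 ↔ a = 0 := by
  rw [← h0, phi_eq]

theorem code_inj (h1 : St_dg) (h0 : (φ 0 : ℕ) = 0) {u v : ℕ →₀ F} (h : code φ u = code φ v) :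
    u = v := by
  ext i
  rw [← phi_eq φ, ← (h1 F φ h0).1 u i, ← (h1 F φ h0).1 v i, h]

theorem rep_inj {m n : ℕ} (h : List.replicate m true = List.replicate n true) : m = n := by
  have h1 := congrArg List.length h
  rwa [List.length_replicate, List.length_replicate] at h1

theorem code_filter (h1 : St_dg) (h0 : (φ 0 : ℕ) = 0) (v : ℕ →₀ F) (r : ℕ) :
    code φ (v.filter (fun j => j % 2 = r)) = part (Fintype.card F) r (code φ v) := by
  have hq : 2 ≤ Fintype.card F := Fintype.one_lt_card
  have hd := (h1 F φ h0).1 v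
  have hsupp : ∀ i, v i ≠ 0 → i < (code φ v).size := by
    intro i hi
    by_contra hcon
    push Not at hcon
    have h2 := hd i
    rw [dg_zero hq hcon] at h2
    exact hi ((phi_zero φ h0).1 h2.symm)
  unfold part
  rw [sum_range_list]
  conv_lhs => rw [code]
  rw [Finsupp.sum_of_support_subset (s := Finset.range (code φ v).size)]
  · apply Finset.sum_congr rfl
    intro i _
    by_cases hi : i % 2 = r
    · rw [if_pos hi, Finsupp.filter_apply_pos (fun j => j % 2 = r) v hi, hd i]
    · rw [if_neg hi, Finsupp.filter_apply_neg (fun j => j % 2 = r) v hi, h0, zero_mul]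
  · intro i hi
    rw [Finset.mem_range]
    apply hsupp
    rw [Finsupp.mem_support_iff] at hi
    by_cases hi2 : i % 2 = r
    · rwa [Finsupp.filter_apply_pos (fun j => j % 2 = r) v hi2] at hi
    · rw [Finsupp.filter_apply_neg (fun j => j % 2 = r) v hi2] at hi
      exact absurd rfl hi
  · intro i _
    rw [h0, zero_mul]

end

end V11

open V11 in
theorem t_tw (h1 : St_dg) (h8 : St_part) : St_tw := by
  intro F _ _ φ h0 S p r hr
  have hq : 2 ≤ Fintype.card F := Fintype.one_lt_card
  obtain ⟨L, hL⟩ : ∃ L, L = tally φ (S : Set (ℕ →₀ F)) := ⟨_, rfl⟩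
  have hKr : ∀ i ∈ KK (Fintype.card F) r L, i % 2 ≠ r := fun i hi => hi.2
  have hcond : ∀ v : ℕ →₀ F, ((∀ i ∈ KK (Fintype.card F) r L, v (lam (Fintype.card F) p r i) = v i) ∧
      (∀ j, j ∉ KK (Fintype.card F) r L → (∀ i ∈ KK (Fintype.card F) r L, lam (Fintype.card F) p r i ≠ j) → v j = 0)) ↔
      ∀ j, dg (Fintype.card F) (code φ v) j ≠ 0 →
        (j ∈ KK (Fintype.card F) r L ∧ dg (Fintype.card F) (code φ v) (lam (Fintype.card F) p r j) = dg (Fintype.card F) (code φ v) j) ∨
          ∃ i ∈ KK (Fintype.card F) r L, lam (Fintype.card F) p r i = j ∧ dg (Fintype.card F) (code φ v) i = dg (Fintype.card F) (code φ v) j := by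
    intro v
    have hd : ∀ i, dg (Fintype.card F) (code φ v) i = φ (v i) := (h1 F φ h0).1 v
    simp only [hd, phi_eq φ, ne_eq, phi_zero φ h0]
    constructor
    · rintro ⟨a1, a2⟩ j hj
      by_cases hjK : j ∈ KK (Fintype.card F) r L
      · exact Or.inl ⟨hjK, a1 j hjK⟩
      · right
        by_contra hcon
        push Not at hcon
        apply hj
        apply a2 j hjK
        intro i hi hij
        have h3 := a1 i hi
        rw [hij] at h3
        exact hcon i hi hij h3.symm
    · intro hC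
      refine ⟨?_, ?_⟩
      · intro i hi
        by_cases hvi : v i = 0
        · by_contra hne
          have hne' : ¬ v (lam (Fintype.card F) p r i) = 0 := fun h => hne (h.trans hvi.symm)
          rcases hC _ hne' with ⟨hc, -⟩ | ⟨i', hi', he, hv'⟩
          · exact hKr _ hc (lam_mod (Fintype.card F) p hr i)
          · have h4 := lam_inj hq p r he
            rw [h4] at hv'
            exact hne hv'.symm
        · rcases hC i hvi with ⟨-, hv⟩ | ⟨i', hi', he, -⟩
          · exact hv
          · exfalso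
            apply hKr i hi
            rw [← he]
            exact lam_mod (Fintype.card F) p hr i'
      · intro j hj hj'
        by_contra hvj
        rcases hC j hvj with ⟨hc, -⟩ | ⟨i', hi', he, -⟩
        · exact hj hc
        · exact hj' i' hi' he
  rw [← hL]
  ext x
  constructor
  · rintro ⟨v, ⟨a1, a2, a3⟩, rfl⟩
    refine ⟨⟨code φ v, rfl, (hcond v).1 ⟨a1, a2⟩⟩, ?_⟩
    rw [List.length_replicate, ← code_filter φ h1 h0 v r]
    rw [hL]
    exact ⟨_, a3, rfl⟩
  · rintro ⟨⟨n, rfl, hC⟩, hpart⟩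
    obtain ⟨v, rfl⟩ := (h1 F φ h0).2 n
    have h2 := (hcond v).2 hC
    rw [List.length_replicate, ← code_filter φ h1 h0 v r] at hpart
    rw [hL] at hpart
    obtain ⟨u, hu, he⟩ := hpart
    have h3 := code_inj φ h1 h0 (rep_inj he)
    refine ⟨v, ⟨h2.1, h2.2, ?_⟩, rfl⟩
    rw [h3]
    exact hu

end Pool.Agent.H752.SV
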